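import Pool.Agent.W2helper74.SOS.Stm4
import Pool.Agent.W2helper18.SOS.J6
import Pool.Agent.W2helper9.SOS.K1

/-!
# Piece P2 of project S1FULL (`MP_ce7760_an`): locally linearly dependent operators (`Lld`)
-/

set_option autoImplicit false

open MvPolynomial

namespace Pool.Agent.W2helper78.SOS

open Pool.Agent.W2helper74.SOS Pool.Agent.W2helper18.SOS

/-! ### The Jacobian -/

/-- the derivative of `e` at `z` -/
noncomputable def Jc {n r : ℕ} (e : Fin r → Pol n) (z : Fin n → ℂ) :
    (Fin n → ℂ) →ₗ[ℂ] (Fin r → ℂ) where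
  toFun v := fun i => ∑ l, v l * eval z (pderiv l (e i))
  map_add' v w := by
    funext i
    simp only [Pi.add_apply, add_mul, Finset.sum_add_distrib]
  map_smul' c v := by
    funext i
    simp only [Pi.smul_apply, smul_eq_mul, RingHom.id_apply, Finset.mul_sum, mul_assoc]

lemma Jc_apply {n r : ℕ} (e : Fin r → Pol n) (z v : Fin n → ℂ) (i : Fin r) :
    Jc e z v i = ∑ l, v l * eval z (pderiv l (e i)) := rfl

/-- Euler -/
lemma Jc_self {n r D : ℕ} (e : Fin r → Pol n) (he : ∀ i, (e i).IsHomogeneous D)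
    (z : Fin n → ℂ) : Jc e z z = (D : ℂ) • evv e z := by
  funext i
  have h := congrArg (eval z) (he i).sum_X_mul_pderiv
  rw [map_sum] at h
  simp only [map_mul, eval_X, nsmul_eq_mul, map_natCast] at h
  rw [Jc_apply, h]
  rfl

/-- semicontinuity of the rank of the Jacobian -/
lemma exists_good {n r : ℕ} (e : Fin r → Pol n) (z₀ : Fin n → ℂ) (δ : ℕ)
    (h : δ ≤ Module.finrank ℂ (LinearMap.range (Jc e z₀))) :
    ∃ G : Pol n, eval z₀ G ≠ 0 ∧
      ∀ z, eval z G ≠ 0 → δ ≤ Module.finrank ℂ (LinearMap.range (Jc e z)) := by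
  classical
  obtain ⟨b, hb⟩ := exists_linearIndependent_of_le_finrank h
  have hq : ∀ i, ∃ q, Jc e z₀ q = (b i : Fin r → ℂ) := fun i => (b i).2
  choose q hq using hq
  have hb' : LinearIndependent ℂ (fun i => (b i : Fin r → ℂ)) :=
    hb.map' (Submodule.subtype _) (Submodule.ker_subtype _)
  obtain ⟨L, hL⟩ := LinearMap.exists_leftInverse_of_injective
    (Fintype.linearCombination ℂ (fun i => (b i : Fin r → ℂ)))
    (LinearMap.ker_eq_bot.2 (linearIndependent_iff_injective_fintypeLinearCombination.1 hb'))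
  have hL1 : ∀ i, L (b i : Fin r → ℂ) = Pi.single i 1 := by
    intro i
    have h1 := LinearMap.congr_fun hL (Pi.single i 1)
    rw [LinearMap.comp_apply, Fintype.linearCombination_apply_single, one_smul] at h1
    exact h1
  let N : Matrix (Fin δ) (Fin δ) (Pol n) := Matrix.of fun i j =>
    ∑ a, C (L (Pi.single a 1) j) * ∑ l, C (q i l) * pderiv l (e a)
  have hN : ∀ z, (N.map (eval z)) = Matrix.of fun i => L (Jc e z (q i)) := by
    intro z
    ext i j
    rw [Matrix.map_apply, Matrix.of_apply]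
    show eval z (∑ a, C (L (Pi.single a 1) j) * ∑ l, C (q i l) * pderiv l (e a)) = _
    rw [map_sum]
    have h2 : Jc e z (q i) = ∑ a, (Jc e z (q i) a) • (Pi.single a (1 : ℂ) : Fin r → ℂ) := by
      funext a
      rw [Finset.sum_apply]
      simp [Pi.single_apply]
    rw [h2, map_sum, Finset.sum_apply]
    refine Finset.sum_congr rfl fun a _ => ?_
    rw [map_smul, Pi.smul_apply, smul_eq_mul, map_mul, eval_C, Jc_apply, map_sum, mul_comm]
    congr 1
    exact Finset.sum_congr rfl fun l _ => by rw [map_mul, eval_C]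
  have hdet : ∀ z, eval z N.det = (Matrix.of fun i => L (Jc e z (q i))).det := by
    intro z
    rw [← hN z, RingHom.map_det]
    rfl
  refine ⟨N.det, ?_, ?_⟩
  · rw [hdet]
    have h3 : (Matrix.of fun i => L (Jc e z₀ (q i))) = (1 : Matrix (Fin δ) (Fin δ) ℂ) := by
      ext i j
      rw [Matrix.of_apply, hq, hL1, Matrix.one_apply, Pi.single_apply]
      simp [eq_comm]
    rw [h3, Matrix.det_one]
    exact one_ne_zero
  · intro z hz
    rw [hdet] at hz
    have h4 := Matrix.linearIndependent_rows_of_det_ne_zero hz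
    have h5 : LinearIndependent ℂ (fun i => Jc e z (q i)) := by
      apply LinearIndependent.of_comp L
      exact h4
    have h6 : LinearIndependent ℂ
        (fun i => (⟨Jc e z (q i), ⟨q i, rfl⟩⟩ : LinearMap.range (Jc e z))) := by
      apply LinearIndependent.of_comp (Submodule.subtype _)
      exact h5
    have h7 := h6.fintype_card_le_finrank
    rwa [Fintype.card_fin] at h7

/-! ### The matrices `M_c` -/

lemma exists_sigma {n m r D : ℕ} (d : Dat n m r D) (hpsd : ¬ d.Psd) :
    ∃ (x : Fin r → ℂ) (σ : Fin n → Fin n × Fin r → ℂ), (∀ j, σ j ∈ Syz d.e) ∧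
      ∀ j k, ∑ i, σ j (k, i) * x i = if j = k then 1 else 0 := by
  classical
  unfold Dat.Psd at hpsd
  push Not at hpsd
  obtain ⟨x, hx⟩ := hpsd
  -- `v ⊗ x ∈ Syz^⊥` implies `v = 0`
  have key : ∀ v : Fin n → ℂ, (∀ σ ∈ Syz d.e, ∑ q : Fin n × Fin r, σ q * (v q.1 * x q.2) = 0) →
      v = 0 := by
    intro v hv
    have hmem : (fun q : Fin n × Fin r => v q.1 * x q.2) ∈
        Submodule.span ℂ (Set.range (tens d.e)) := mem_span_tens _ _ hv
    have h3 := BB_nonneg d _ hmem
    rw [BB_pure, Complex.re_ofReal_mul] at h3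
    by_contra hv0
    have hpos : 0 < ∑ k, Complex.normSq (v k) := by
      by_contra hle
      have h4 : ∑ k, Complex.normSq (v k) = 0 :=
        le_antisymm (not_lt.1 hle) (Finset.sum_nonneg fun k _ => Complex.normSq_nonneg _)
      apply hv0
      funext k
      have h5 := (Finset.sum_eq_zero_iff_of_nonneg
        (fun k _ => Complex.normSq_nonneg (v k))).1 h4 k (Finset.mem_univ k)
      exact Complex.normSq_eq_zero.1 h5
    exact absurd h3 (not_le.2 (mul_neg_of_pos_of_neg hpos hx))
  let Φ : Syz d.e →ₗ[ℂ] (Fin n → ℂ) :=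
    { toFun := fun σ k => ∑ i, σ.1 (k, i) * x i
      map_add' := fun σ τ => by
        funext k
        simp only [Submodule.coe_add, Pi.add_apply, add_mul, Finset.sum_add_distrib]
      map_smul' := fun c σ => by
        funext k
        simp only [Submodule.coe_smul, Pi.smul_apply, smul_eq_mul, RingHom.id_apply,
          Finset.mul_sum, mul_assoc] }
  have hΦ : LinearMap.range Φ = ⊤ := by
    by_contra h
    obtain ⟨f, hf0, hf⟩ := Submodule.exists_le_ker_of_lt_top _ (lt_top_iff_ne_top.2 h)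
    apply hf0
    have h1 : (fun i => f (fun j => if i = j then 1 else 0)) = 0 := by
      apply key
      intro σ hσ
      have h3 : f (Φ ⟨σ, hσ⟩) = 0 := hf ⟨⟨σ, hσ⟩, rfl⟩
      rw [LinearMap.pi_apply_eq_sum_univ f (Φ ⟨σ, hσ⟩)] at h3
      refine Eq.trans ?_ h3
      rw [Fintype.sum_prod_type]
      refine Finset.sum_congr rfl fun k _ => ?_
      show _ = (∑ i, σ (k, i) * x i) • _
      rw [smul_eq_mul, Finset.sum_mul]
      refine Finset.sum_congr rfl fun i _ => ?_
      ring
    refine LinearMap.ext fun v => ?_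
    rw [LinearMap.zero_apply, LinearMap.pi_apply_eq_sum_univ f v]
    exact Finset.sum_eq_zero fun i _ => by rw [congrFun h1 i]; simp
  have h2 : ∀ j : Fin n, ∃ σ : Syz d.e, Φ σ = Pi.single j 1 := fun j => by
    have : (Pi.single j 1 : Fin n → ℂ) ∈ LinearMap.range Φ := by rw [hΦ]; trivial
    exact this
  choose σ hσ using h2
  refine ⟨x, fun j => (σ j).1, fun j => (σ j).2, fun j k => ?_⟩
  have h4 := congrFun (hσ j) k
  rw [Pi.single_apply] at h4
  refine Eq.trans h4 ?_
  simp [eq_comm]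

/-- the matrix `M_c` -/
noncomputable def MM {n r : ℕ} (σ : Fin n → Fin n × Fin r → ℂ) (c : Fin r → ℂ) :
    Matrix (Fin n) (Fin n) ℂ := Matrix.of fun j k => ∑ i, σ j (k, i) * c i

lemma MM_apply {n r : ℕ} (σ : Fin n → Fin n × Fin r → ℂ) (c : Fin r → ℂ) (j k : Fin n) :
    MM σ c j k = ∑ i, σ j (k, i) * c i := rfl

lemma MM_add {n r : ℕ} (σ : Fin n → Fin n × Fin r → ℂ) (c c' : Fin r → ℂ) :
    MM σ (c + c') = MM σ c + MM σ c' := by
  ext j k
  simp only [MM_apply, Matrix.add_apply, Pi.add_apply, mul_add, Finset.sum_add_distrib]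

lemma MM_smul {n r : ℕ} (σ : Fin n → Fin n × Fin r → ℂ) (t : ℂ) (c : Fin r → ℂ) :
    MM σ (t • c) = t • MM σ c := by
  ext j k
  simp only [MM_apply, Matrix.smul_apply, Pi.smul_apply, smul_eq_mul, Finset.mul_sum]
  exact Finset.sum_congr rfl fun i _ => by ring

/-- `M_{e(z)} v = 0` if `v = z` or `v ∈ ker (Jac z)` -/
lemma MM_self {n r : ℕ} (e : Fin r → Pol n) (σ : Fin n → Fin n × Fin r → ℂ)
    (hσ : ∀ j, σ j ∈ Syz e) (z : Fin n → ℂ) : (MM σ (evv e z)).mulVec z = 0 := by
  funext j
  have h : SS e (σ j) z z = 0 := hσ j z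
  rw [Pi.zero_apply, ← h]
  unfold SS
  rw [Fintype.sum_prod_type]
  show ∑ k, MM σ (evv e z) j k * z k = _
  refine Finset.sum_congr rfl fun k _ => ?_
  rw [MM_apply, Finset.sum_mul]
  refine Finset.sum_congr rfl fun i _ => ?_
  show σ j (k, i) * eval z (e i) * z k = _
  ring

lemma MM_ker {n r : ℕ} (e : Fin r → Pol n) (σ : Fin n → Fin n × Fin r → ℂ)
    (hσ : ∀ j, σ j ∈ Syz e) (z v : Fin n → ℂ) (hv : Jc e z v = 0) :
    (MM σ (evv e z)).mulVec v = 0 := by
  classical
  funext j
  have h0 : (∑ k : Fin n, ∑ i : Fin r, C (σ j (k, i)) * (X k * e i) : Pol n) = 0 := by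
    apply MvPolynomial.funext
    intro y
    have h : SS e (σ j) y y = 0 := hσ j y
    unfold SS at h
    rw [Fintype.sum_prod_type] at h
    rw [map_zero, ← h, map_sum]
    refine Finset.sum_congr rfl fun k _ => ?_
    rw [map_sum]
    refine Finset.sum_congr rfl fun i _ => ?_
    rw [map_mul, map_mul, eval_C, eval_X]
    ring
  have h1 : ∀ l : Fin n, ∑ k : Fin n, ∑ i : Fin r, σ j (k, i) *
      ((if k = l then 1 else 0) * eval z (e i) + z k * eval z (pderiv l (e i))) = 0 := by
    intro l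
    have h2 := congrArg (fun P => eval z (pderiv l P)) h0
    simp only [map_sum, map_zero] at h2
    refine Eq.trans ?_ h2
    refine Finset.sum_congr rfl fun k _ => Finset.sum_congr rfl fun i _ => ?_
    rw [Derivation.leibniz, Derivation.leibniz, pderiv_C, pderiv_X]
    simp only [smul_eq_mul, mul_zero, add_zero, map_add, map_mul, eval_C, eval_X]
    have h3 : eval z ((Pi.single l 1 : Fin n → Pol n) k) = if k = l then 1 else 0 := by
      rw [Pi.single_apply]
      split_ifs <;> simp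
    rw [h3]
    ring
  have h4 : ∑ l : Fin n, v l * (∑ k : Fin n, ∑ i : Fin r, σ j (k, i) *
      ((if k = l then 1 else 0) * eval z (e i) + z k * eval z (pderiv l (e i)))) = 0 := by
    exact Finset.sum_eq_zero fun l _ => by rw [h1 l, mul_zero]
  have h5 : ∑ l : Fin n, v l * (∑ k : Fin n, ∑ i : Fin r, σ j (k, i) *
      ((if k = l then 1 else 0) * eval z (e i) + z k * eval z (pderiv l (e i)))) =
      (∑ l, v l * ∑ i, σ j (l, i) * eval z (e i)) +
        ∑ k, ∑ i, σ j (k, i) * z k * (Jc e z v i) := by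
    simp only [mul_add, Finset.sum_add_distrib, Finset.mul_sum]
    congr 1
    · refine Finset.sum_congr rfl fun l _ => ?_
      rw [Finset.sum_eq_single l]
      · exact Finset.sum_congr rfl fun i _ => by rw [if_pos rfl, one_mul]
      · intro k _ hk
        exact Finset.sum_eq_zero fun i _ => by rw [if_neg hk]; ring
      · intro h; exact absurd (Finset.mem_univ l) h
    · rw [Finset.sum_comm]
      refine Finset.sum_congr rfl fun k _ => ?_
      rw [Finset.sum_comm]
      refine Finset.sum_congr rfl fun i _ => ?_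
      rw [Jc_apply, Finset.mul_sum]
      exact Finset.sum_congr rfl fun l _ => by ring
  rw [h5] at h4
  have h6 : ∑ k, ∑ i, σ j (k, i) * z k * (Jc e z v i) = 0 := by
    refine Finset.sum_eq_zero fun k _ => Finset.sum_eq_zero fun i _ => ?_
    rw [congrFun hv i, Pi.zero_apply, mul_zero]
  rw [h6, add_zero] at h4
  rw [Pi.zero_apply]
  refine Eq.trans ?_ h4
  show ∑ k, MM σ (evv e z) j k * v k = _
  refine Finset.sum_congr rfl fun k _ => ?_
  rw [MM_apply, mul_comm]
  rfl

/-- rank bound at good points -/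
lemma rank_MM {n r D : ℕ} (e : Fin r → Pol n) (he : ∀ i, (e i).IsHomogeneous D) (hD : 1 ≤ D)
    (σ : Fin n → Fin n × Fin r → ℂ) (hσ : ∀ j, σ j ∈ Syz e) (z : Fin n → ℂ) (δ : ℕ)
    (hδ : Module.finrank ℂ (LinearMap.range (Jc e z)) ≤ δ) (hz : evv e z ≠ 0) :
    (MM σ (evv e z)).rank + 1 ≤ δ := by
  set A := MM σ (evv e z) with hA
  have h1 : LinearMap.ker (Jc e z) < LinearMap.ker A.mulVecLin := by
    refine lt_of_le_of_ne ?_ ?_
    · intro v hv
      rw [LinearMap.mem_ker] at hv ⊢
      rw [Matrix.mulVecLin_apply]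
      exact MM_ker e σ hσ z v hv
    · intro h
      have h2 : z ∈ LinearMap.ker (Jc e z) := by
        rw [h, LinearMap.mem_ker, Matrix.mulVecLin_apply]
        exact MM_self e σ hσ z
      rw [LinearMap.mem_ker, Jc_self e he z] at h2
      rcases smul_eq_zero.1 h2 with h3 | h3
      · have : D = 0 := by exact_mod_cast h3
        omega
      · exact hz h3
  have h2 := Submodule.finrank_lt_finrank_of_lt h1
  have h3 := LinearMap.finrank_range_add_finrank_ker (Jc e z)
  have h4 := LinearMap.finrank_range_add_finrank_ker A.mulVecLin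
  have h5 : A.rank = Module.finrank ℂ (LinearMap.range A.mulVecLin) := rfl
  omega

/-! ### Enlarging subspaces by images of the Jacobian -/

lemma finrank_add_le {r s : ℕ} (U S : Submodule ℂ (Fin r → ℂ)) (hUS : U ≤ S)
    (φ : (Fin r → ℂ) →ₗ[ℂ] (Fin s → ℂ)) (hU : U ≤ LinearMap.ker φ) (hS : S.map φ = ⊤) :
    Module.finrank ℂ U + s ≤ Module.finrank ℂ S := by
  have h1 := LinearMap.finrank_range_add_finrank_ker (φ.domRestrict S)
  have h2 : LinearMap.range (φ.domRestrict S) = ⊤ := by
    rw [LinearMap.range_domRestrict, hS]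
  rw [h2, finrank_top, Module.finrank_fin_fun] at h1
  have h3 : Module.finrank ℂ U ≤ Module.finrank ℂ (LinearMap.ker (φ.domRestrict S)) := by
    rw [← (Submodule.comapSubtypeEquivOfLe hUS).finrank_eq]
    apply Submodule.finrank_mono
    intro v hv
    rw [LinearMap.mem_ker]
    exact hU hv
  omega

lemma exists_fun {r s : ℕ} (U : Submodule ℂ (Fin r → ℂ)) (h : Module.finrank ℂ U + s ≤ r) :
    ∃ φ : (Fin r → ℂ) →ₗ[ℂ] (Fin s → ℂ), U ≤ LinearMap.ker φ ∧ Function.Surjective φ := by
  classical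
  have h1 : s ≤ Module.finrank ℂ ((Fin r → ℂ) ⧸ U) := by
    have h2 := Submodule.finrank_quotient_add_finrank U
    rw [Module.finrank_fin_fun] at h2
    omega
  obtain ⟨b, hb⟩ := exists_linearIndependent_of_le_finrank h1
  obtain ⟨L, hL⟩ := LinearMap.exists_leftInverse_of_injective
    (Fintype.linearCombination ℂ b)
    (LinearMap.ker_eq_bot.2 (linearIndependent_iff_injective_fintypeLinearCombination.1 hb))
  refine ⟨L ∘ₗ U.mkQ, ?_, ?_⟩
  · intro v hv
    rw [LinearMap.mem_ker, LinearMap.comp_apply, Submodule.mkQ_apply,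
      (Submodule.Quotient.mk_eq_zero U).2 hv, map_zero]
  · intro y
    obtain ⟨v, hv⟩ := U.mkQ_surjective (Fintype.linearCombination ℂ b y)
    refine ⟨v, ?_⟩
    rw [LinearMap.comp_apply, hv]
    exact LinearMap.congr_fun hL y

/-- the polynomial `φ_a(e)` -/
noncomputable def fe {n r s : ℕ} (e : Fin r → Pol n) (φ : (Fin r → ℂ) →ₗ[ℂ] (Fin s → ℂ))
    (a : Fin s) : Pol n := ∑ i, C (φ (Pi.single i 1) a) * e i

lemma phi_eq {r s : ℕ} (φ : (Fin r → ℂ) →ₗ[ℂ] (Fin s → ℂ)) (v : Fin r → ℂ) (a : Fin s) :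
    φ v a = ∑ i, φ (Pi.single i 1) a * v i := by
  classical
  have h2 : v = ∑ i, v i • (Pi.single i (1 : ℂ) : Fin r → ℂ) := by
    funext i
    rw [Finset.sum_apply]
    simp [Pi.single_apply]
  conv_lhs => rw [h2]
  rw [map_sum, Finset.sum_apply]
  exact Finset.sum_congr rfl fun i _ => by
    rw [map_smul, Pi.smul_apply, smul_eq_mul, mul_comm]

lemma eval_fe {n r s : ℕ} (e : Fin r → Pol n) (φ : (Fin r → ℂ) →ₗ[ℂ] (Fin s → ℂ))
    (a : Fin s) (z : Fin n → ℂ) : eval z (fe e φ a) = φ (evv e z) a := by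
  rw [phi_eq, fe, map_sum]
  exact Finset.sum_congr rfl fun i _ => by rw [map_mul, eval_C]; rfl

lemma eval_pderiv_fe {n r s : ℕ} (e : Fin r → Pol n) (φ : (Fin r → ℂ) →ₗ[ℂ] (Fin s → ℂ))
    (a : Fin s) (l : Fin n) (z : Fin n → ℂ) :
    eval z (pderiv l (fe e φ a)) = φ (Jc e z (Pi.single l 1)) a := by
  classical
  rw [phi_eq, fe, map_sum, map_sum]
  refine Finset.sum_congr rfl fun i _ => ?_
  rw [Derivation.leibniz, pderiv_C]
  simp only [smul_eq_mul, mul_zero, add_zero, map_mul, eval_C]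
  congr 1
  rw [Jc_apply]
  simp [Pi.single_apply]

lemma fe_hom {n r s D : ℕ} (e : Fin r → Pol n) (he : ∀ i, (e i).IsHomogeneous D)
    (φ : (Fin r → ℂ) →ₗ[ℂ] (Fin s → ℂ)) (a : Fin s) : (fe e φ a).IsHomogeneous D := by
  unfold fe
  apply IsHomogeneous.sum
  intro i _
  have h := (isHomogeneous_C (Fin n) (φ (Pi.single i 1) a)).mul (he i)
  rwa [zero_add] at h

/-- two functionals: some `2 × 2` minor of the Jacobian of the pair is not zero -/
lemma wr {n r D : ℕ} (e : Fin r → Pol n) (hi : LinearIndependent ℂ e)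
    (he : ∀ i, (e i).IsHomogeneous D) (hD : 1 ≤ D) (φ : (Fin r → ℂ) →ₗ[ℂ] (Fin 2 → ℂ))
    (hφ : Function.Surjective φ) :
    ∃ k l, pderiv l (fe e φ 0) * pderiv k (fe e φ 1) -
      pderiv k (fe e φ 0) * pderiv l (fe e φ 1) ≠ 0 := by
  classical
  by_contra hcon
  push Not at hcon
  have hE0 := (fe_hom e he φ 0).sum_X_mul_pderiv
  have hE1 := (fe_hom e he φ 1).sum_X_mul_pderiv
  have h1 : ∀ k, fe e φ 0 * pderiv k (fe e φ 1) = fe e φ 1 * pderiv k (fe e φ 0) := by
    intro k
    have h2 : (∑ l, X l * pderiv l (fe e φ 0)) * pderiv k (fe e φ 1) =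
        (∑ l, X l * pderiv l (fe e φ 1)) * pderiv k (fe e φ 0) := by
      rw [Finset.sum_mul, Finset.sum_mul]
      refine Finset.sum_congr rfl fun l _ => ?_
      have h3 := sub_eq_zero.1 (hcon k l)
      rw [mul_assoc, h3]
      ring
    rw [hE0, hE1, nsmul_eq_mul, nsmul_eq_mul, mul_assoc, mul_assoc] at h2
    have hD' : (D : Pol n) ≠ 0 := by
      have : ((D : ℕ) : Pol n) = C (D : ℂ) := by rw [map_natCast]
      rw [this]
      intro h4
      have h5 := C_injective _ _ (h4.trans (C_0).symm)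
      have : D = 0 := by exact_mod_cast h5
      omega
    exact mul_left_cancel₀ hD' h2
  obtain ⟨s, t, hst, h2⟩ := Pool.Agent.W2helper9.SOS.wron n _ _ h1
  have h3 : ∀ v, s * φ v 0 = t * φ v 1 := by
    have h4 : (fun i => s * φ (Pi.single i 1) 0 - t * φ (Pi.single i 1) 1) = 0 := by
      apply zero_of_vanish hi
      intro x
      have h5 := congrArg (eval x) h2
      rw [map_mul, map_mul, eval_C, eval_C, eval_fe, eval_fe, phi_eq, phi_eq _ _ 1,
        Finset.mul_sum, Finset.mul_sum, ← sub_eq_zero, ← Finset.sum_sub_distrib] at h5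
      refine Eq.trans (Finset.sum_congr rfl fun i _ => ?_) h5
      show _ = s * (φ (Pi.single i 1) 0 * eval x (e i)) - t * (φ (Pi.single i 1) 1 * eval x (e i))
      ring
    intro v
    rw [phi_eq, phi_eq _ _ 1, Finset.mul_sum, Finset.mul_sum]
    refine Finset.sum_congr rfl fun i _ => ?_
    have h6 := congrFun h4 i
    simp only [Pi.zero_apply] at h6
    linear_combination (v i) * h6
  obtain ⟨v, hv⟩ := hφ ![1, 0]
  obtain ⟨v', hv'⟩ := hφ ![0, 1]
  have h5 := h3 v
  have h6 := h3 v'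
  rw [hv] at h5
  rw [hv'] at h6
  simp at h5 h6
  rcases hst with h | h
  · exact h h5
  · exact h h6.symm

lemma exists_eval {n : ℕ} (P : Pol n) (hP : P ≠ 0) : ∃ z, eval z P ≠ 0 := by
  by_contra h
  push Not at h
  apply hP
  apply MvPolynomial.funext
  intro z
  rw [h z, map_zero]

lemma step {n r D : ℕ} (e : Fin r → Pol n) (hi : LinearIndependent ℂ e)
    (he : ∀ i, (e i).IsHomogeneous D) (hD : 1 ≤ D) (G : Pol n) (hG : G ≠ 0)
    (U : Submodule ℂ (Fin r → ℂ)) :
    ∃ z, eval z G ≠ 0 ∧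
      min r (Module.finrank ℂ U + 2) ≤ Module.finrank ℂ (U ⊔ LinearMap.range (Jc e z) :
        Submodule ℂ (Fin r → ℂ)) := by
  classical
  have hUr : Module.finrank ℂ U ≤ r := by
    have := Submodule.finrank_le U
    rwa [Module.finrank_fin_fun] at this
  rcases Nat.lt_or_ge r (Module.finrank ℂ U + 2) with h | h
  · rcases Nat.lt_or_ge (Module.finrank ℂ U) r with h' | h'
    · obtain ⟨φ, hφ1, hφ2⟩ := exists_fun (s := 1) U h'
      have hf : fe e φ 0 ≠ 0 := by
        intro h0
        have h4 : (fun i => φ (Pi.single i 1) 0) = 0 := by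
          apply zero_of_vanish hi
          intro x
          have h5 := congrArg (eval x) h0
          rw [eval_fe, phi_eq, map_zero] at h5
          exact h5
        obtain ⟨v, hv⟩ := hφ2 ![1]
        have h5 := congrFun hv 0
        rw [phi_eq] at h5
        have h6 : ∑ i, φ (Pi.single i 1) 0 * v i = 0 :=
          Finset.sum_eq_zero fun i _ => by rw [congrFun h4 i]; simp
        rw [h6] at h5
        simp at h5
      obtain ⟨z, hz⟩ := exists_eval _ (mul_ne_zero hf hG)
      rw [map_mul] at hz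
      refine ⟨z, right_ne_zero_of_mul hz, ?_⟩
      have h1 : Module.finrank ℂ U + 1 ≤ Module.finrank ℂ (U ⊔ LinearMap.range (Jc e z) :
          Submodule ℂ (Fin r → ℂ)) := by
        apply finrank_add_le U _ le_sup_left φ hφ1
        rw [eq_top_iff]
        intro y _
        have h2 := left_ne_zero_of_mul hz
        rw [eval_fe] at h2
        have hD' : (D : ℂ) ≠ 0 := by exact_mod_cast (by omega : D ≠ 0)
        refine ⟨(y 0 / (φ (evv e z) 0 * D)) • Jc e z z,
          Submodule.smul_mem _ _ (Submodule.mem_sup_right ⟨z, rfl⟩), ?_⟩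
        funext i
        rw [Subsingleton.elim i 0, map_smul, Pi.smul_apply, Jc_self e he z, map_smul,
          Pi.smul_apply, smul_eq_mul, smul_eq_mul]
        field_simp
      omega
    · obtain ⟨z, hz⟩ := exists_eval _ hG
      refine ⟨z, hz, ?_⟩
      have := Submodule.finrank_mono (le_sup_left : U ≤ U ⊔ LinearMap.range (Jc e z))
      omega
  · obtain ⟨φ, hφ1, hφ2⟩ := exists_fun (s := 2) U h
    obtain ⟨k, l, hkl⟩ := wr e hi he hD φ hφ2
    obtain ⟨z, hz⟩ := exists_eval _ (mul_ne_zero hkl hG)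
    rw [map_mul] at hz
    refine ⟨z, right_ne_zero_of_mul hz, ?_⟩
    refine le_trans (min_le_right _ _) ?_
    apply finrank_add_le U _ le_sup_left φ hφ1
    rw [eq_top_iff]
    intro y _
    have h2 := left_ne_zero_of_mul hz
    rw [map_sub, map_mul, map_mul] at h2
    simp only [eval_pderiv_fe] at h2
    set a := φ (Jc e z (Pi.single l 1)) 0 with ha
    set b := φ (Jc e z (Pi.single l 1)) 1 with hb
    set c := φ (Jc e z (Pi.single k 1)) 0 with hc
    set dd := φ (Jc e z (Pi.single k 1)) 1 with hdd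
    refine ⟨((y 0 * dd - y 1 * c) / (a * dd - c * b)) • Jc e z (Pi.single l 1) +
      ((y 1 * a - y 0 * b) / (a * dd - c * b)) • Jc e z (Pi.single k 1), ?_, ?_⟩
    · exact Submodule.add_mem _
        (Submodule.smul_mem _ _ (Submodule.mem_sup_right ⟨_, rfl⟩))
        (Submodule.smul_mem _ _ (Submodule.mem_sup_right ⟨_, rfl⟩))
    · funext i
      rw [map_add, map_smul, map_smul, Pi.add_apply, Pi.smul_apply, Pi.smul_apply, smul_eq_mul,
        smul_eq_mul]
      fin_cases i
      · show _ * φ (Jc e z (Pi.single l 1)) 0 + _ * φ (Jc e z (Pi.single k 1)) 0 = y 0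
        rw [← ha, ← hc, div_mul_eq_mul_div, div_mul_eq_mul_div, ← add_div, div_eq_iff h2]
        ring
      · show _ * φ (Jc e z (Pi.single l 1)) 1 + _ * φ (Jc e z (Pi.single k 1)) 1 = y 1
        rw [← hb, ← hdd, div_mul_eq_mul_div, div_mul_eq_mul_div, ← add_div, div_eq_iff h2]
        ring

lemma chain {n r D : ℕ} (e : Fin r → Pol n) (hi : LinearIndependent ℂ e)
    (he : ∀ i, (e i).IsHomogeneous D) (hD : 1 ≤ D) (G : Pol n) (hG : G ≠ 0) (δ : ℕ)
    (hδ : ∀ z, eval z G ≠ 0 → δ ≤ Module.finrank ℂ (LinearMap.range (Jc e z))) (k : ℕ) :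
    ∃ z : Fin (k + 1) → (Fin n → ℂ), (∀ j, eval (z j) G ≠ 0) ∧
      min r (δ + 2 * k) ≤ Module.finrank ℂ (⨆ j, LinearMap.range (Jc e (z j)) :
        Submodule ℂ (Fin r → ℂ)) := by
  induction k with
  | zero =>
    obtain ⟨z, hz⟩ := exists_eval _ hG
    refine ⟨fun _ => z, fun _ => hz, ?_⟩
    have h1 := hδ z hz
    have h2 := Submodule.finrank_mono
      (le_iSup (fun j : Fin (0 + 1) => LinearMap.range (Jc e ((fun _ => z) j))) 0)
    simp only at h2 ⊢
    omega
  | succ k ih =>
    obtain ⟨z, hz1, hz2⟩ := ih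
    obtain ⟨w, hw1, hw2⟩ := step e hi he hD G hG (⨆ j, LinearMap.range (Jc e (z j)))
    refine ⟨Fin.cons w z, ?_, ?_⟩
    · intro j
      refine Fin.cases ?_ ?_ j
      · simpa using hw1
      · intro j; simpa using hz1 j
    · have h1 : (⨆ j, LinearMap.range (Jc e (z j))) ⊔ LinearMap.range (Jc e w) ≤
          ⨆ j, LinearMap.range (Jc e ((Fin.cons w z : Fin (k + 1 + 1) → (Fin n → ℂ)) j)) := by
        refine sup_le (iSup_le fun j => ?_) ?_
        · refine le_trans (le_of_eq ?_) (le_iSup _ j.succ)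
          rw [Fin.cons_succ]
        · refine le_trans (le_of_eq ?_) (le_iSup _ 0)
          rw [Fin.cons_zero]
      have h2 := Submodule.finrank_mono h1
      omega

/-! ### The open mapping argument -/

lemma hasStrictFDerivAt_eval {n : ℕ} (p : Pol n) (z : Fin n → ℂ) :
    HasStrictFDerivAt (fun y : Fin n → ℂ => eval y p)
      (∑ l, eval z (pderiv l p) • (ContinuousLinearMap.proj l : (Fin n → ℂ) →L[ℂ] ℂ)) z := by
  classical
  induction p using MvPolynomial.induction_on with
  | C a =>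
    have h0 : (∑ l, eval z (pderiv l (C a : Pol n)) •
        (ContinuousLinearMap.proj l : (Fin n → ℂ) →L[ℂ] ℂ)) = 0 := by
      ext v
      simp
    rw [h0]
    simp only [eval_C]
    exact hasStrictFDerivAt_const a z
  | add p q hp hq =>
    simp only [map_add]
    refine (hp.fun_add hq).congr_fderiv ?_
    ext v
    simp [add_mul, Finset.sum_add_distrib]
  | mul_X p i hp =>
    have h1 : HasStrictFDerivAt (fun y : Fin n → ℂ => y i)
        (ContinuousLinearMap.proj i : (Fin n → ℂ) →L[ℂ] ℂ) z :=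
      (ContinuousLinearMap.proj i : (Fin n → ℂ) →L[ℂ] ℂ).hasStrictFDerivAt
    have h2 := hp.mul h1
    simp only [map_mul, eval_X]
    refine h2.congr_fderiv ?_
    ext v
    simp only [add_apply, smul_apply, sum_apply, ContinuousLinearMap.proj_apply, smul_eq_mul,
      Derivation.leibniz, pderiv_X, map_add, map_mul, eval_X]
    simp only [add_mul, Finset.sum_add_distrib]
    congr 1
    · rw [Finset.sum_eq_single i]
      · simp
      · intro l _ hl
        rw [Pi.single_apply, if_neg (Ne.symm hl)]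
        simp
      · intro h; exact absurd (Finset.mem_univ i) h
    · rw [Finset.mul_sum]
      exact Finset.sum_congr rfl fun l _ => by ring

lemma hasStrictFDerivAt_evv {n r : ℕ} (e : Fin r → Pol n) (z : Fin n → ℂ) :
    HasStrictFDerivAt (evv e) (LinearMap.toContinuousLinearMap (Jc e z)) z := by
  rw [hasStrictFDerivAt_pi']
  intro i
  refine (hasStrictFDerivAt_eval (e i) z).congr_fderiv ?_
  ext v
  simp only [sum_apply, smul_apply, ContinuousLinearMap.proj_apply, smul_eq_mul, ContinuousLinearMap.comp_apply,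
    LinearMap.coe_toContinuousLinearMap', Jc_apply]
  exact Finset.sum_congr rfl fun l _ => mul_comm _ _

lemma rank_add_le' {n : ℕ} (A B : Matrix (Fin n) (Fin n) ℂ) :
    (A + B).rank ≤ A.rank + B.rank := by
  have h1 : LinearMap.range (A + B).mulVecLin ≤
      LinearMap.range A.mulVecLin ⊔ LinearMap.range B.mulVecLin := by
    rintro _ ⟨v, rfl⟩
    rw [Matrix.mulVecLin_apply, Matrix.add_mulVec]
    exact Submodule.add_mem_sup ⟨v, rfl⟩ ⟨v, rfl⟩
  exact (Submodule.finrank_mono h1).trans (Submodule.finrank_add_le_finrank_add_finrank _ _)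

/-- PIECE P2 -/
theorem lld : Lld := by
  classical
  intro n m r D d hn hpsd
  -- `D ≥ 1`
  have hF := f4 n m r D d hpsd
  have hr : 2 ≤ r := by
    by_contra h
    push Not at h
    have : r * (r - 1) / 2 = 0 := by
      interval_cases r <;> rfl
    omega
  have hD : 1 ≤ D := by
    by_contra h
    obtain rfl : D = 0 := by omega
    have hc : ∀ i, d.e i = C ((d.e i).coeff 0) := by
      intro i
      have h1 := d.e_hom i
      exact (totalDegree_eq_zero_iff_eq_C.1 ((totalDegree_zero_iff_isHomogeneous _).2 h1))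
    have h2 : ∀ x : Fin n → ℂ, ∀ i, eval x (d.e i) = (d.e i).coeff 0 := by
      intro x i
      conv_lhs => rw [hc i]
      rw [eval_C]
    obtain ⟨v, hv0, hv⟩ : ∃ v : Fin r → ℂ, v ≠ 0 ∧ ∑ i, v i * (d.e i).coeff 0 = 0 := by
      let L : (Fin r → ℂ) →ₗ[ℂ] (Fin 1 → ℂ) :=
        { toFun := fun v _ => ∑ i, v i * (d.e i).coeff 0
          map_add' := fun v w => by
            funext _
            simp only [Pi.add_apply, add_mul, Finset.sum_add_distrib]
          map_smul' := fun c v => by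
            funext _
            simp only [Pi.smul_apply, smul_eq_mul, RingHom.id_apply, Finset.mul_sum, mul_assoc] }
      have hker : LinearMap.ker L ≠ ⊥ := by
        apply LinearMap.ker_ne_bot_of_finrank_lt
        rw [Module.finrank_fin_fun, Module.finrank_fin_fun]
        omega
      obtain ⟨v, hv, hv0⟩ := Submodule.exists_mem_ne_zero_of_ne_bot hker
      exact ⟨v, hv0, congrFun hv 0⟩
    apply hv0
    apply zero_of_vanish d.e_ind
    intro x
    rw [← hv]
    exact Finset.sum_congr rfl fun i _ => by rw [h2]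
  obtain ⟨x₀, σ, hσ, hx₀⟩ := exists_sigma d hpsd
  have hM1 : MM σ x₀ = 1 := by
    ext j k
    rw [MM_apply, hx₀, Matrix.one_apply]
  -- the maximal rank of the Jacobian
  let S : Set ℕ := Set.range fun z => Module.finrank ℂ (LinearMap.range (Jc d.e z))
  have hSb : BddAbove S := ⟨r, by
    rintro _ ⟨z, rfl⟩
    have := Submodule.finrank_le (LinearMap.range (Jc d.e z))
    rwa [Module.finrank_fin_fun] at this⟩
  have hSn : S.Nonempty := ⟨_, 0, rfl⟩
  obtain ⟨z₀, hz₀⟩ := Nat.sSup_mem hSn hSb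
  set δ := sSup S with hδdef
  have hδ1 : ∀ z, Module.finrank ℂ (LinearMap.range (Jc d.e z)) ≤ δ :=
    fun z => le_csSup hSb ⟨z, rfl⟩
  have hδr : δ ≤ r := csSup_le hSn (by
    rintro _ ⟨z, rfl⟩
    have := Submodule.finrank_le (LinearMap.range (Jc d.e z))
    rwa [Module.finrank_fin_fun] at this)
  obtain ⟨G₁, hG₁, hG₁'⟩ := exists_good d.e z₀ δ hz₀.ge
  have hG₁0 : G₁ ≠ 0 := by
    rintro rfl
    exact hG₁ (map_zero _)
  have he0 : d.e ⟨0, by omega⟩ ≠ 0 := d.e_ind.ne_zero _
  set G := d.e ⟨0, by omega⟩ * G₁ with hGdef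
  have hG0 : G ≠ 0 := mul_ne_zero he0 hG₁0
  have hgood : ∀ z, eval z G ≠ 0 → (MM σ (evv d.e z)).rank + 1 ≤ δ := by
    intro z hz
    rw [hGdef, map_mul] at hz
    apply rank_MM d.e d.e_hom hD σ hσ z δ (hδ1 z)
    intro h
    exact left_ne_zero_of_mul hz (congrFun h ⟨0, by omega⟩)
  obtain ⟨k, hk⟩ : ∃ k, k = (r - δ + 1) / 2 := ⟨_, rfl⟩
  obtain ⟨z, hz1, hz2⟩ := chain d.e d.e_ind d.e_hom hD G hG0 δ
    (fun z hz => hG₁' z (by rw [hGdef, map_mul] at hz; exact right_ne_zero_of_mul hz)) k
  have htop : (⨆ j, LinearMap.range (Jc d.e (z j)) : Submodule ℂ (Fin r → ℂ)) = ⊤ := by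
    apply Submodule.eq_top_of_finrank_eq
    rw [Module.finrank_fin_fun]
    have h1 := Submodule.finrank_le (⨆ j, LinearMap.range (Jc d.e (z j)) :
      Submodule ℂ (Fin r → ℂ))
    rw [Module.finrank_fin_fun] at h1
    omega
  -- the map `Φ`
  let Φ : (Fin (k + 1) → Fin n → ℂ) → (Fin r → ℂ) := fun x => ∑ j, evv d.e (x j)
  let Φ' : (Fin (k + 1) → Fin n → ℂ) →L[ℂ] (Fin r → ℂ) :=
    ∑ j, (LinearMap.toContinuousLinearMap (Jc d.e (z j))).comp
      (ContinuousLinearMap.proj j : (Fin (k + 1) → Fin n → ℂ) →L[ℂ] (Fin n → ℂ))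
  have hΦ : HasStrictFDerivAt Φ Φ' z := by
    apply HasStrictFDerivAt.fun_sum
    intro j _
    exact HasStrictFDerivAt.comp z (hasStrictFDerivAt_evv d.e (z j))
      (ContinuousLinearMap.proj j : (Fin (k + 1) → Fin n → ℂ) →L[ℂ] (Fin n → ℂ)).hasStrictFDerivAt
  have hsurj : Φ'.range = ⊤ := by
    rw [eq_top_iff, ← htop]
    refine iSup_le fun j => ?_
    rintro _ ⟨v, rfl⟩
    refine ⟨Pi.single j v, ?_⟩
    show Φ' (Pi.single j v) = _
    simp only [Φ', sum_apply, ContinuousLinearMap.comp_apply, ContinuousLinearMap.proj_apply,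
      LinearMap.coe_toContinuousLinearMap']
    rw [Finset.sum_eq_single j]
    · rw [Pi.single_eq_same]
    · intro l _ hl
      rw [Pi.single_eq_of_ne hl, map_zero]
    · intro h; exact absurd (Finset.mem_univ j) h
  have hmap := hΦ.map_nhds_eq_of_surj hsurj
  -- the open set of good points
  have hopen : {x : Fin (k + 1) → Fin n → ℂ | ∀ j, eval (x j) G ≠ 0} ∈ nhds z := by
    have h1 : {x : Fin (k + 1) → Fin n → ℂ | ∀ j, eval (x j) G ≠ 0} =
        ⋂ j, {x | eval (x j) G ≠ 0} := by ext x; simp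
    rw [h1]
    apply IsOpen.mem_nhds
    · apply isOpen_iInter_of_finite
      intro j
      apply isOpen_ne_fun
      · exact (MvPolynomial.continuous_eval G).comp (continuous_apply j)
      · exact continuous_const
    · simpa using hz1
  have himg : Φ '' {x | ∀ j, eval (x j) G ≠ 0} ∈ nhds (Φ z) := by
    rw [← hmap]
    exact Filter.image_mem_map hopen
  -- a good point with an invertible matrix
  have hex : ∃ x : Fin (k + 1) → Fin n → ℂ, (∀ j, eval (x j) G ≠ 0) ∧
      (MM σ (Φ x)).det ≠ 0 := by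
    by_contra hcon
    push Not at hcon
    let Q : Polynomial ℂ := Matrix.det (Matrix.of fun a b =>
      Polynomial.C (MM σ (Φ z) a b) + Polynomial.X * Polynomial.C (MM σ (x₀ - Φ z) a b))
    have hQ : ∀ t : ℂ, Q.eval t = (MM σ (Φ z + t • (x₀ - Φ z))).det := by
      intro t
      have h2 : Q.eval t = (Polynomial.evalRingHom t) Q := rfl
      rw [h2, RingHom.map_det]
      congr 1
      ext a b
      rw [MM_add, MM_smul]
      simp
      ring
    have hc : Continuous fun t : ℂ => Φ z + t • (x₀ - Φ z) := by fun_prop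
    have h3 : {t : ℂ | Φ z + t • (x₀ - Φ z) ∈ Φ '' {x | ∀ j, eval (x j) G ≠ 0}} ∈ nhds (0 : ℂ) := by
      apply hc.continuousAt.preimage_mem_nhds
      rw [zero_smul, add_zero]
      exact himg
    have h4 : Q = 0 := by
      apply Polynomial.eq_zero_of_infinite_isRoot
      apply (infinite_of_mem_nhds (0 : ℂ) h3).mono
      rintro t ⟨x, hx, hxt⟩
      show Q.eval t = 0
      rw [hQ, ← hxt]
      exact hcon x hx
    have h5 := hQ 1
    rw [h4, Polynomial.eval_zero, one_smul, add_sub_cancel, hM1, Matrix.det_one] at h5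
    exact zero_ne_one h5
  obtain ⟨x, hx1, hx2⟩ := hex
  refine ⟨δ, hδr, ?_⟩
  have hrank : (MM σ (Φ x)).rank = n := by
    have h1 : IsUnit (MM σ (Φ x)) := (Matrix.isUnit_iff_isUnit_det _).2 (isUnit_iff_ne_zero.2 hx2)
    rw [Matrix.rank_of_isUnit _ h1, Fintype.card_fin]
  have hsum : ∀ s : Finset (Fin (k + 1)),
      (MM σ (∑ j ∈ s, evv d.e (x j))).rank ≤ s.card * (δ - 1) := by
    intro s
    induction s using Finset.induction_on with
    | empty =>
      have h0 : MM σ (0 : Fin r → ℂ) = 0 := by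
        ext a b
        simp [MM_apply]
      rw [Finset.sum_empty, h0, Matrix.rank_zero]
      exact Nat.zero_le _
    | insert j s hj ih =>
      rw [Finset.sum_insert hj, MM_add, Finset.card_insert_of_notMem hj]
      have h1 := rank_add_le' (MM σ (evv d.e (x j))) (MM σ (∑ j ∈ s, evv d.e (x j)))
      have h2 := hgood (x j) (hx1 j)
      have h3 : (s.card + 1) * (δ - 1) = s.card * (δ - 1) + (δ - 1) := by ring
      omega
  have h1 := hsum Finset.univ
  rw [Finset.card_univ, Fintype.card_fin] at h1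
  have h2 : MM σ (∑ j, evv d.e (x j)) = MM σ (Φ x) := rfl
  rw [h2, hrank] at h1
  calc n ≤ (k + 1) * (δ - 1) := h1
    _ = (δ - 1) * (1 + (r - δ + 1) / 2) := by rw [← hk]; ring

end Pool.Agent.W2helper78.SOS
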